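import Pool.Agent.Helper83x.ZM.SX

set_option autoImplicit false

/-!
# MP_973905_nt: the moments `∫ |ζ(1/2+it)|⁴ ∏_j |ζ(1/2+i(t+c_j))|² dt` for almost all shifts, every number of shifts

For every `n` and every `ε > 0`, for all large `T` and all `c` in the cube `[0, T]^n` outside a set of measure at most
`ε T^n`, the quotient of

`∫_0^T |ζ(1/2 + it)|⁴ ∏_{j ≤ n} |ζ(1/2 + i(t + c_j))|² dt`

and

`(1/12) A(c) ∏_j |ζ(1 + i c_j)|⁴ ∏_{i < j} |ζ(1 + i (c_i - c_j))|² · T (log T)^(n + 4)`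

differs from `1` by at most `ε`; here `A(c)` is an absolutely convergent Euler product. There is also the form in the
mean: the `L¹` norm over the cube of the difference of the moment divided by `T (log T)^(n+4)` and of `1/12` times the
product of the local densities of the primes `p ≤ log T` is at most `ε T^n`.

These are moments of every even order `2(n+2)` on the critical line (of order `6`, with `(log T)^5`, for `n = 1`) in
which two of the `n + 2` shifts are equal, the other ones being generic. For `n = 0` this is Ingham's theorem.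

The parts of the proof come from the unfinished project SX of the starting library (`Pool.Agent.Y969.SM` and the
modules of its parts); added here: the second moment of zeta, on which its parts depend, and the assembly.
-/

namespace Pool.Agent.Results.MP_973905_nt.FourthPowerWithShifts

open Complex MeasureTheory

noncomputable section

/-- The moment. -/
def moment {n : ℕ} (c : Fin n → ℝ) (T : ℝ) : ℝ :=
  ∫ t in (0:ℝ)..T, ‖riemannZeta (1 / 2 + I * t)‖ ^ 4 * ∏ j, ‖riemannZeta (1 / 2 + I * (t + c j))‖ ^ 2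

/-- The local density at the prime `p`. -/
def density {n : ℕ} (c : Fin n → ℝ) (p : ℕ) : ℝ :=
  (1 - 1 / (p : ℝ)) ^ (n + 4) * ∫ θ in (0:ℝ)..1,
    1 / (‖1 - cexp (2 * Real.pi * I * θ) * (p : ℂ) ^ (-(1 / 2) : ℂ)‖ ^ 4 *
      ∏ j, ‖1 - cexp (2 * Real.pi * I * θ) * (p : ℂ) ^ (-(1 / 2 + I * c j))‖ ^ 2)

/-- The product of the values of zeta on the line `Re s = 1`. -/
def Z {n : ℕ} (c : Fin n → ℝ) : ℝ :=
  (∏ j, ‖riemannZeta (1 + I * c j)‖ ^ 4) *
    ∏ i, ∏ j ∈ Finset.Ioi i, ‖riemannZeta (1 + I * (c i - c j))‖ ^ 2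

/-- The inverse of the Euler factor at `p` of `Z c`. -/
def inverseFactor {n : ℕ} (c : Fin n → ℝ) (p : ℕ) : ℝ :=
  (∏ j, ‖1 - (p : ℂ) ^ (-(1 + I * c j))‖ ^ 4) *
    ∏ i, ∏ j ∈ Finset.Ioi i, ‖1 - (p : ℂ) ^ (-(1 + I * (c i - c j)))‖ ^ 2

/-- The arithmetic factor. -/
def A {n : ℕ} (c : Fin n → ℝ) : ℝ := ∏' p : Nat.Primes, density c p * inverseFactor c p

/-- The Euler product `A(c)` converges absolutely, and the moment is asymptotically equal to
`(1/12) A(c) Z(c) T (log T)^(n+4)` for almost all `c` in `[0, T]^n`; and the same in the mean over `c`, with the product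
of the local densities of the primes up to `log T`. -/
theorem result (n : ℕ) :
    (∃ C : ℝ, ∀ c : Fin n → ℝ, ∀ p : ℕ, p.Prime → |density c p * inverseFactor c p - 1| ≤ C / (p:ℝ) ^ 2) ∧
    ∀ ε : ℝ, 0 < ε → ∃ T₀ : ℝ, ∀ T : ℝ, T₀ ≤ T →
      volume {c : Fin n → ℝ | (∀ j, c j ∈ Set.Icc 0 T) ∧
        ¬ |moment c T / (1 / 12 * A c * Z c * (T * Real.log T ^ (n + 4))) - 1| ≤ ε} ≤ ENNReal.ofReal (ε * T ^ n) ∧
      IntegrableOn (fun c : Fin n → ℝ => |moment c T / (T * Real.log T ^ (n + 4)) -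
        1 / 12 * ∏ p ∈ (Finset.range (⌊Real.log T⌋₊ + 1)).filter Nat.Prime, density c p|)
          {c | ∀ j, c j ∈ Set.Icc 0 T} ∧
      ∫ c in {c : Fin n → ℝ | ∀ j, c j ∈ Set.Icc 0 T}, |moment c T / (T * Real.log T ^ (n + 4)) -
        1 / 12 * ∏ p ∈ (Finset.range (⌊Real.log T⌋₊ + 1)).filter Nat.Prime, density c p| ≤ ε * T ^ n := by
  obtain ⟨h1, h2⟩ := Pool.Agent.Y969.SM.res_gen Pool.Agent.Helper83x.ZM.sx_MAIN Pool.Agent.Helper83x.ZM.sx_REL
    Pool.Agent.Helper83x.ZM.sx_AA n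
  refine ⟨h1, fun ε hε => ?_⟩
  obtain ⟨T₀, h⟩ := h2 ε hε
  refine ⟨T₀, fun T hT => ?_⟩
  obtain ⟨q1, q2, q3⟩ := h T hT
  exact ⟨q3, q1, q2⟩

end

end Pool.Agent.Results.MP_973905_nt.FourthPowerWithShifts
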