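import Pool.Agent.Helper83x.ZM.GS

set_option autoImplicit false

/-!
# MP_973905_nt: shifted moments of zeta: almost all shift vectors, and almost all `β` for a FIXED `α`

Consider the shifted moments of order `2k`,
`∫_0^S ∏_{j ≤ k} ζ(1/2 + i(t + α_j)) ζ(1/2 - i(t + β_j)) dt`.

(1) For every `k` there is `δ > 0` such that for all large `T`, for all `(α, β)` in the cube `[0, T]^(2k)` outside a set
of measure at most `T^(2k - δ)`, the recipe of Conrey, Farmer, Keating, Rubinstein and Snaith (the sum over all the ways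
to exchange some of the `α_j` with as many of the `β_j`) gives the moment with an error at most `T^(1 - δ)`,
simultaneously for all `0 ≤ S ≤ T`.

(2) For `k ≤ 4`, that is, for the moments of order `2, 4, 6, 8`, one half of the shifts may be kept FIXED: there is
`δ > 0` such that for EVERY `α ∈ ℝ^k` (for example `α = 0`), all large `T` and all `0 ≤ S ≤ T`, the moment is
`S A(iα; -iβ) ∏_{j,l} ζ(1 + i(α_j - β_l))` with an error at most `T^(1 - δ)`, for all `β ∈ [0, T]^k` outside a set of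
measure at most `T^(k - δ)`.

The parts of the proof come from the unfinished projects GS and GF of the starting library (`Pool.Agent.TH612.GS` and
the modules of its parts); added here: the second moment of zeta, on which they depend, and the assembly.
-/

namespace Pool.Agent.Results.MP_973905_nt.HalfOfTheShiftsFixed

open Complex MeasureTheory

noncomputable section

/-- The shifted divisor function: the sum of `∏_j m_j^(-z_j)` over the `(m_j)` with product `m`. -/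
def dv {k : ℕ} (z : Fin k → ℂ) (m : ℕ) : ℂ := ∑ f ∈ Nat.finMulAntidiag k m, ∏ j, (f j : ℂ) ^ (-z j)

/-- The local factor of the arithmetic factor `A(z; w)` at the prime `p`. -/
def localFactor {k : ℕ} (z w : Fin k → ℂ) (p : ℕ) : ℂ :=
  (∏ i, ∏ l, (1 - (p : ℂ) ^ (-(1 + z i + w l)))) * ∑' m : ℕ, dv z (p ^ m) * dv w (p ^ m) * ((p : ℂ) ^ m)⁻¹

/-- `A(z; w) ∏_{i,l} ζ(1 + z_i + w_l)`, the continuation of `∑_m dv z m dv w m / m`. -/
def diagonal {k : ℕ} (z w : Fin k → ℂ) : ℂ :=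
  (∏' p : Nat.Primes, localFactor z w p) * ∏ i, ∏ l, riemannZeta (1 + z i + w l)

/-- The integrand. -/
def F {k : ℕ} (α β : Fin k → ℝ) (t : ℝ) : ℂ :=
  ∏ j, riemannZeta (1 / 2 + I * (t + α j)) * riemannZeta (1 / 2 - I * (t + β j))

/-- The factor of the functional equation `ζ(s) = χ(s) ζ(1 - s)`. -/
def chi (s : ℂ) : ℂ := (Real.pi : ℂ) ^ (s - 1 / 2) * Gamma ((1 - s) / 2) / Gamma (s / 2)

/-- The term of the recipe that belongs to the permutation `π` of the `2k` shifts `γ = (α, β)`. -/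
def term {k : ℕ} (γ : Fin k ⊕ Fin k → ℝ) (t : ℝ) (π : Equiv.Perm (Fin k ⊕ Fin k)) : ℂ :=
  (∏ j : Fin k, if (π (Sum.inl j)).isRight then chi (1 / 2 - I * t - I * γ (π (Sum.inl j))) else 1) *
    (∏ j : Fin k, if (π (Sum.inr j)).isLeft then chi (1 / 2 + I * t + I * γ (π (Sum.inr j))) else 1) *
    diagonal (fun j => I * γ (π (Sum.inl j))) (fun j => -(I * γ (π (Sum.inr j))))

/-- The recipe: the sum over the exchanges is `(k!)^(-2)` times the sum over all permutations of the shifts. -/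
def recipe {k : ℕ} (γ : Fin k ⊕ Fin k → ℝ) (t : ℝ) : ℂ :=
  ((k.factorial : ℂ) ^ 2)⁻¹ * ∑ π : Equiv.Perm (Fin k ⊕ Fin k), term γ t π

lemma diagonal_eq {k : ℕ} (a b : Fin k → ℂ) :
    diagonal (fun j => I * a j) (fun j => -(I * b j)) = Pool.Agent.TH612.CF.zab a b := by
  unfold diagonal Pool.Agent.TH612.CF.zab Pool.Agent.TH612.CF.FH
  congr 1
  refine tprod_congr fun p => ?_
  unfold localFactor Pool.Agent.TH612.CF.lh Pool.Agent.TH612.CF.lt Pool.Agent.W182.KO.tau dv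
  simp only [neg_neg, ← sub_eq_add_neg]
  congr 1
  refine tsum_congr fun m => ?_
  ring

lemma recipe_eq {k : ℕ} (γ : Fin k ⊕ Fin k → ℝ) (t : ℝ) :
    recipe γ t = ((Nat.factorial k : ℂ) ^ 2)⁻¹ * Pool.Agent.TH612.CF.Qs t (fun i => (γ i : ℂ)) := by
  unfold recipe Pool.Agent.TH612.CF.Qs
  congr 1
  refine Finset.sum_congr rfl fun π _ => ?_
  unfold term Pool.Agent.TH612.CF.Rt Pool.Agent.TH612.CF.GG
  rw [diagonal_eq (fun j => (γ (π (Sum.inl j)) : ℂ)) (fun j => (γ (π (Sum.inr j)) : ℂ))]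
  rfl

lemma vol_box {ι : Type} [Fintype ι] (T : ℝ) (E : Set (ι → ℝ)) (hE : ∀ γ ∈ E, ∀ i, 0 ≤ γ i ∧ γ i ≤ T) :
    volume E = Pool.Agent.TH612.GS.mP ι T E := by
  unfold Pool.Agent.TH612.GS.mP
  rw [← Measure.restrict_pi_pi, Measure.restrict_apply' (MeasurableSet.univ_pi fun _ => measurableSet_Icc)]
  have h : E ∩ (Set.univ.pi fun _ => Set.Icc 0 T) = E :=
    Set.inter_eq_left.2 fun γ hγ => Set.mem_univ_pi.2 fun i => hE γ hγ i
  rw [h]
  rfl

lemma F_eq {k : ℕ} (γ : Fin k ⊕ Fin k → ℝ) (t : ℝ) :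
    F (fun j => γ (Sum.inl j)) (fun j => γ (Sum.inr j)) t = Pool.Agent.TH612.CF.Zg γ t := by
  unfold F Pool.Agent.TH612.CF.Zg
  rfl

lemma DD_eq {k : ℕ} (γ : Fin k ⊕ Fin k → ℝ) (S : ℝ) :
    ∫ t in (0 : ℝ)..S, (F (fun j => γ (Sum.inl j)) (fun j => γ (Sum.inr j)) t - recipe γ t) =
      Pool.Agent.TH612.GS.DD S γ := by
  unfold Pool.Agent.TH612.GS.DD
  refine intervalIntegral.integral_congr fun t _ => ?_
  show F (fun j => γ (Sum.inl j)) (fun j => γ (Sum.inr j)) t - recipe γ t = _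
  rw [F_eq, recipe_eq]

lemma W_eq {k : ℕ} (α β : Fin k → ℝ) (S : ℝ) :
    (∫ t in (0 : ℝ)..S, F α β t) - S * diagonal (fun j => I * α j) (fun j => -(I * β j)) =
      (∫ t in (0 : ℝ)..S, Pool.Agent.TH612.CF.Zg (Pool.Agent.TH612.GS.gab α β) t) -
        S * Pool.Agent.TH612.GS.zr (Pool.Agent.TH612.GS.gab α β) := by
  have e1 : ∀ t : ℝ, F α β t = Pool.Agent.TH612.CF.Zg (Pool.Agent.TH612.GS.gab α β) t := fun t => by
    rw [← F_eq]
    rfl
  have e2 : diagonal (fun j => I * α j) (fun j => -(I * β j)) =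
      Pool.Agent.TH612.GS.zr (Pool.Agent.TH612.GS.gab α β) := by
    unfold Pool.Agent.TH612.GS.zr
    rw [← diagonal_eq]
    rfl
  simp only [e1, e2]

/-- (1) For every `k` the recipe holds for almost all shift vectors in `[0, T]^(2k)` with a power saving, uniformly in
the length `S ≤ T`. (2) For `k ≤ 4` and every fixed `α` the diagonal term gives the moment with a power saving for
almost all `β` in `[0, T]^k`. -/
theorem result :
    (∀ k : ℕ, ∃ δ T₀ : ℝ, 0 < δ ∧ ∀ T : ℝ, T₀ ≤ T →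
      volume {γ : Fin k ⊕ Fin k → ℝ | (∀ i, 0 ≤ γ i ∧ γ i ≤ T) ∧ ∃ S : ℝ, 0 ≤ S ∧ S ≤ T ∧
        T ^ (1 - δ) < ‖∫ t in (0 : ℝ)..S,
          (F (fun j => γ (Sum.inl j)) (fun j => γ (Sum.inr j)) t - recipe γ t)‖} ≤
      ENNReal.ofReal (T ^ (2 * (k : ℝ) - δ))) ∧
    (∀ k : ℕ, k ≤ 4 → ∃ δ : ℝ, 0 < δ ∧ ∀ α : Fin k → ℝ, ∃ T₀ : ℝ, ∀ T S : ℝ, T₀ ≤ T → 0 ≤ S → S ≤ T →
      volume {β : Fin k → ℝ | (∀ j, 0 ≤ β j ∧ β j ≤ T) ∧
        T ^ (1 - δ) < ‖(∫ t in (0 : ℝ)..S, F α β t) -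
          S * diagonal (fun j => I * α j) (fun j => -(I * β j))‖} ≤
      ENNReal.ofReal (T ^ ((k : ℝ) - δ))) := by
  refine ⟨fun k => ?_, fun k hk => ?_⟩
  · obtain ⟨δ, hδ, T₀, h⟩ := Pool.Agent.Helper83x.ZM.gs_main k
    refine ⟨δ, T₀, hδ, fun T hT => ?_⟩
    rw [vol_box T _ fun γ hγ => hγ.1]
    simp only [DD_eq]
    exact h T hT
  · obtain ⟨δ, hδ, h⟩ := Pool.Agent.Helper83x.ZM.gf_mainD k hk
    refine ⟨δ, hδ, fun α => ?_⟩
    obtain ⟨T₀, h⟩ := h α
    refine ⟨T₀, fun T S hT hS hST => ?_⟩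
    rw [vol_box T _ fun γ hγ => hγ.1]
    simp only [W_eq]
    exact h T hT S hS hST

end

end Pool.Agent.Results.MP_973905_nt.HalfOfTheShiftsFixed
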