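import Pool.Agent.Helper83x.ZM.GP

set_option autoImplicit false

/-!
# MP_973905_nt: shifted moments of zeta of every order `2(n+1)`, square-root remainder, almost all shifts

For every `n ≥ 0` and `ε > 0` there is `δ > 0` such that for `T` large, `0 ≤ S ≤ T` and all shift vectors `c` in the
cube `[0, T]^n` outside a set of measure at most `T^(n - δ)`

`∫_0^S |ζ(1/2 + it)|² ∏_{j=1}^n |ζ(1/2 + i(t + c_j))|² dt = ∫_0^S R_c(t) dt + O(T^(1/2 + ε))`.

The main term `R_c(t)` is the non-oscillating part of the recipe of Conrey, Farmer, Keating, Rubinstein and Snaith,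
written as an integral over the torus `|w_j| = 1/8` (the residue at `w = 0`): with `c_0 = 0`

`R_c(t) = (2πi)^(-n-1) ∮ A(w + ic; w - ic) ∏_{i,l} ζ(1 + w_i + w_l + i(c_i - c_l)) ∏_j (2 / w_j) ((t + c_j)/2π)^(w_j) dw`

with the Euler product `A(z; w)` of the recipe. All the powers of the logarithm are contained in the main term; the
quality of the remainder is that of the conjecture on the moments themselves.

The parts of the proof come from the unfinished project GP of the starting library (`Pool.Agent.Y969.GP` and the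
modules of its parts); added here: the second moment of zeta, its mean square to the right of the critical line
(Phragmen-Lindelof), and the assembly.
-/

namespace Pool.Agent.Results.MP_973905_nt.ShiftsSquareRoot

open Complex MeasureTheory

noncomputable section

/-- The shifts `c_0 = 0, c_1, …, c_n`. -/
def sh {n : ℕ} (c : Fin n → ℝ) : Fin (n + 1) → ℝ := Fin.cons 0 c

/-- The shifted divisor function: the sum of `∏_j m_j^(-z_j)` over the `(m_j)` with product `m`. -/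
def dv {k : ℕ} (z : Fin k → ℂ) (m : ℕ) : ℂ := ∑ f ∈ Nat.finMulAntidiag k m, ∏ j, (f j : ℂ) ^ (-z j)

/-- The local factor of the arithmetic factor `A(z; w)` at the prime `p`. -/
def localFactor {k : ℕ} (z w : Fin k → ℂ) (p : ℕ) : ℂ :=
  (∏ i, ∏ l, (1 - (p : ℂ) ^ (-(1 + z i + w l)))) * ∑' m : ℕ, dv z (p ^ m) * dv w (p ^ m) * ((p : ℂ) ^ m)⁻¹

/-- The arithmetic factor: `A(z; w) ∏_{i,l} ζ(1 + z_i + w_l)` is the continuation of `∑_m dv z m dv w m / m`. -/
def A {k : ℕ} (z w : Fin k → ℂ) : ℂ := ∏' p : Nat.Primes, localFactor z w p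

/-- The main term at the height `t`. -/
def R {n : ℕ} (c : Fin n → ℝ) (t : ℝ) : ℂ :=
  ((2 * Real.pi * I) ^ (n + 1))⁻¹ * torusIntegral (fun w : Fin (n + 1) → ℂ =>
    A (fun j => w j + I * sh c j) (fun j => w j - I * sh c j) *
      (∏ i, ∏ l, riemannZeta (1 + w i + w l + I * (sh c i - sh c l))) *
      ∏ j, (2 / w j * cexp (w j * (Real.log ((t + sh c j) / (2 * Real.pi)) : ℝ))))
    (fun _ => 0) (fun _ => 1 / 8)

lemma A_eq {k : ℕ} (z w a b : Fin k → ℂ) (ha : ∀ j, I * a j = z j) (hb : ∀ j, I * b j = -w j) :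
    A z w = Pool.Agent.TH612.CF.FH a b := by
  unfold A Pool.Agent.TH612.CF.FH
  refine tprod_congr fun p => ?_
  unfold localFactor Pool.Agent.TH612.CF.lh Pool.Agent.TH612.CF.lt Pool.Agent.W182.KO.tau dv
  simp only [ha, hb, sub_neg_eq_add]
  congr 1
  refine tsum_congr fun m => ?_
  ring

lemma R_eq {n : ℕ} (c : Fin n → ℝ) (t : ℝ) : R c t = Pool.Agent.Y969.GP.RR c t := by
  unfold R Pool.Agent.Y969.GP.RR
  congr 2
  funext w
  rw [A_eq _ _ (Pool.Agent.Y969.GP.av c w) (Pool.Agent.Y969.GP.bv c w)]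
  · rfl
  · intro j
    have : Pool.Agent.Y969.GP.av c w j = (sh c j : ℂ) - I * w j := rfl
    rw [this, mul_sub, ← mul_assoc, I_mul_I]
    ring
  · intro j
    have : Pool.Agent.Y969.GP.bv c w j = (sh c j : ℂ) + I * w j := rfl
    rw [this, mul_add, ← mul_assoc, I_mul_I]
    ring

/-- For every `n` and `ε > 0` there are `δ > 0` and `T₀` such that for all `T ≥ T₀` and `0 ≤ S ≤ T` the shift vectors
`c` in `[0, T]^n` with
`|∫_0^S |ζ(1/2 + it)|² ∏_j |ζ(1/2 + i(t + c_j))|² dt - ∫_0^S R_c(t) dt| > T^(1/2 + ε)`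
form a set of measure at most `T^(n - δ)`. -/
theorem result (n : ℕ) (ε : ℝ) (hε : 0 < ε) :
    ∃ δ T₀ : ℝ, 0 < δ ∧ ∀ T S : ℝ, T₀ ≤ T → 0 ≤ S → S ≤ T →
      volume {c : Fin n → ℝ | (∀ j, 0 ≤ c j ∧ c j ≤ T) ∧ T ^ (1 / 2 + ε) <
        ‖((∫ t in (0 : ℝ)..S, ‖riemannZeta (1 / 2 + I * t)‖ ^ 2 *
            ∏ j, ‖riemannZeta (1 / 2 + I * (t + c j))‖ ^ 2 : ℝ) : ℂ) - ∫ t in (0 : ℝ)..S, R c t‖} ≤
      ENNReal.ofReal (T ^ ((n : ℝ) - δ)) := by
  obtain ⟨δ, T₀, hδ, h⟩ := Pool.Agent.Helper83x.ZM.gp_main n ε hε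
  refine ⟨δ, T₀, hδ, fun T S hT hS hST => ?_⟩
  refine le_trans (le_of_eq ?_) (h T S hT hS hST)
  congr 1
  ext c
  have e1 : ∀ t : ℝ, ‖riemannZeta (1 / 2 + I * t)‖ ^ 2 * ∏ j, ‖riemannZeta (1 / 2 + I * (t + c j))‖ ^ 2 =
      ∏ j, Pool.Agent.Y969.GP.ff (t + Pool.Agent.Y969.GP.cc c j) := by
    intro t
    rw [Fin.prod_univ_succ]
    unfold Pool.Agent.Y969.GP.ff Pool.Agent.Y969.GP.cc
    simp only [Fin.cons_zero, Fin.cons_succ, add_zero]
    push_cast
    rfl
  simp only [Set.mem_ofPred_eq, R_eq, e1]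

end

end Pool.Agent.Results.MP_973905_nt.ShiftsSquareRoot
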