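import Pool.Agent.Helper83x.ZM.PU
import Pool.Agent.Helper83x.ZM.PZ

set_option autoImplicit false

/-!
# MP_973905_nt: shifted moments of zeta of every order, small shifts and short intervals

(1) Shifts of polylogarithmic size. For every `n` and `B` there are `C₀, B₀` such that for every `ε > 0`, all large `T`
and all `U` with `(log T)^C₀ ≤ U ≤ T^(1/4)`: for all `c ∈ [0, U]^n` outside a set of measure at most `ε U^n` the moment

`∫ |ζ(1/2 + it)|² ∏_{j ≤ n} |ζ(1/2 + i(t + c_j))|² dt`, over the `t ∈ [0, T]` with `∫_t^{t+U} |ζ|⁴ ≤ U (log T)^B₀`,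

divided by `A(c) ∏_j |ζ(1 + i c_j)|² ∏_{i<j} |ζ(1 + i(c_i - c_j))|² · T (log T)^(n+1)` is within `ε` of `1`; the omitted
`t` form a set of measure at most `T / (log T)^B`.

(2) Separate shifts and short intervals. For every `k` there are `δ > 0` and `C₀` such that for `H, U ≤ T` with
`V = H U / T ≥ (log T)^C₀`: for all `(α, β) ∈ [0, U]^(2k)` outside a set of measure at most `U^(2k) V^(-δ)`, the integral
of `∏_j ζ(1/2 + i(t + α_j)) ζ(1/2 - i(t + β_j))` over the `t ∈ [T, T + H]` with `∫_t^{t+U} |ζ|² ≤ U V^(3δ)` is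
`H A(iα; -iβ) ∏_{j,l} ζ(1 + i(α_j - β_l))` up to `H V^(-δ)`; the omitted `t` form a set of measure at most `H V^(-δ)`, and
no `t` is omitted if `U ≥ √T`. So the interval may be as short as a power of `log T` for shifts up to `T`, and the shifts
as small as a power of `log T` for the interval `[T, 2T]`.

The parts of the proof come from the unfinished projects PZ and PU of the starting library (`Pool.Agent.N879.PZ`,
`Pool.Agent.N879.PU`); added here: the part LED of PZ (the leading term of the model, with the second moment of zeta), and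
the assembly of both projects.
-/

namespace Pool.Agent.Results.MP_973905_nt.ShortIntervalsSmallShifts

open Complex MeasureTheory Filter

noncomputable section

/-! ### Squares, small shifts -/

/-- The points `t` such that the fourth moment of zeta over `[t, t + U]` is at most `U W`. -/
def regular4 (U W : ℝ) : Set ℝ := {t | ∫ u in t..(t + U), ‖riemannZeta (1 / 2 + I * u)‖ ^ 4 ≤ U * W}

/-- The local density at the prime `p`. -/
def density {n : ℕ} (c : Fin n → ℝ) (p : ℕ) : ℝ :=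
  (1 - 1 / (p : ℝ)) ^ (n + 1) * ∫ θ in (0:ℝ)..1,
    1 / (‖1 - cexp (2 * Real.pi * I * θ) * (p : ℂ) ^ (-(1 / 2) : ℂ)‖ ^ 2 *
      ∏ j, ‖1 - cexp (2 * Real.pi * I * θ) * (p : ℂ) ^ (-(1 / 2 + I * c j))‖ ^ 2)

/-- The product of the values of zeta on the line `Re s = 1`. -/
def Z {n : ℕ} (c : Fin n → ℝ) : ℝ :=
  (∏ j, ‖riemannZeta (1 + I * c j)‖ ^ 2) *
    ∏ i, ∏ j ∈ Finset.Ioi i, ‖riemannZeta (1 + I * (c i - c j))‖ ^ 2

/-- The inverse of the Euler factor at `p` of `Z c`. -/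
def inverseFactor {n : ℕ} (c : Fin n → ℝ) (p : ℕ) : ℝ :=
  (∏ j, ‖1 - (p : ℂ) ^ (-(1 + I * c j))‖ ^ 2) *
    ∏ i, ∏ j ∈ Finset.Ioi i, ‖1 - (p : ℂ) ^ (-(1 + I * (c i - c j)))‖ ^ 2

/-- The arithmetic factor. -/
def A {n : ℕ} (c : Fin n → ℝ) : ℝ := ∏' p : Nat.Primes, density c p * inverseFactor c p

/-- The moment over the regular points of `[0, T]`. -/
def moment {n : ℕ} (T U W : ℝ) (c : Fin n → ℝ) : ℝ :=
  ∫ t in regular4 U W ∩ Set.Icc 0 T,
    ‖riemannZeta (1 / 2 + I * t)‖ ^ 2 * ∏ j, ‖riemannZeta (1 / 2 + I * (t + c j))‖ ^ 2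

/-! ### Separate shifts, short intervals -/

/-- The points `t` such that the second moment of zeta over `[t, t + U]` is at most `U V`. -/
def regular2 (U V : ℝ) : Set ℝ := {t | ∫ u in t..(t + U), ‖riemannZeta (1 / 2 + I * u)‖ ^ 2 ≤ U * V}

/-- The shifted divisor function: the sum of `∏_j m_j^(-z_j)` over the `(m_j)` with product `m`. -/
def dv {k : ℕ} (z : Fin k → ℂ) (m : ℕ) : ℂ := ∑ f ∈ Nat.finMulAntidiag k m, ∏ j, (f j : ℂ) ^ (-z j)

/-- The local factor of the arithmetic factor `A(z; w)` at the prime `p`. -/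
def localFactor {k : ℕ} (z w : Fin k → ℂ) (p : ℕ) : ℂ :=
  (∏ i, ∏ l, (1 - (p : ℂ) ^ (-(1 + z i + w l)))) * ∑' m : ℕ, dv z (p ^ m) * dv w (p ^ m) * ((p : ℂ) ^ m)⁻¹

/-- `A(z; w) ∏_{i,l} ζ(1 + z_i + w_l)`, the continuation of `∑_m dv z m dv w m / m`. -/
def diagonal {k : ℕ} (z w : Fin k → ℂ) : ℂ :=
  (∏' p : Nat.Primes, localFactor z w p) * ∏ i, ∏ l, riemannZeta (1 + z i + w l)

lemma diagonal_eq {k : ℕ} (a b : Fin k → ℂ) :
    diagonal (fun j => I * a j) (fun j => -(I * b j)) = Pool.Agent.TH612.CF.zab a b := by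
  unfold diagonal Pool.Agent.TH612.CF.zab Pool.Agent.TH612.CF.FH
  congr 1
  refine tprod_congr fun p => ?_
  unfold localFactor Pool.Agent.TH612.CF.lh Pool.Agent.TH612.CF.lt Pool.Agent.W182.KO.tau dv
  simp only [neg_neg, ← sub_eq_add_neg]
  congr 1
  refine tsum_congr fun m => ?_
  ring

lemma vol_box {ι : Type} [Fintype ι] (T : ℝ) (E : Set (ι → ℝ)) :
    volume {γ : ι → ℝ | (∀ i, 0 ≤ γ i ∧ γ i ≤ T) ∧ γ ∈ E} = Pool.Agent.TH612.GS.mP ι T E := by
  unfold Pool.Agent.TH612.GS.mP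
  rw [← Measure.restrict_pi_pi, Measure.restrict_apply' (MeasurableSet.univ_pi fun _ => measurableSet_Icc)]
  have h : {γ : ι → ℝ | (∀ i, 0 ≤ γ i ∧ γ i ≤ T) ∧ γ ∈ E} = E ∩ (Set.univ.pi fun _ => Set.Icc 0 T) := by
    ext γ
    rw [Set.mem_inter_iff, Set.mem_univ_pi, and_comm]
    rfl
  rw [h]
  rfl

lemma F_eq {k : ℕ} (γ : Fin k ⊕ Fin k → ℝ) (t : ℝ) :
    ∏ j, riemannZeta (1 / 2 + I * (t + γ (Sum.inl j))) * riemannZeta (1 / 2 - I * (t + γ (Sum.inr j))) =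
      ∏ i, Pool.Agent.N879.PU.fs Pool.Agent.TH612.GS.z i (t + γ i) := by
  have h1 := Pool.Agent.TH612.GS.Zg_fz γ t
  have h2 : ∏ i, Pool.Agent.N879.PU.fs Pool.Agent.TH612.GS.z i (t + γ i) =
      ∏ j : Fin k, Pool.Agent.TH612.GS.z (t + γ (Sum.inl j)) *
        (starRingEnd ℂ) (Pool.Agent.TH612.GS.z (t + γ (Sum.inr j))) := by
    rw [Fintype.prod_sum_type, Finset.prod_mul_distrib]
    rfl
  rw [h2, ← h1]
  rfl

theorem result :
    (∀ n B : ℕ, ∃ C₀ B₀ : ℕ, ∀ ε : ℝ, 0 < ε → ∃ T₀ : ℝ, ∀ T U : ℝ, T₀ ≤ T →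
      Real.log T ^ C₀ ≤ U → U ≤ T ^ (1 / 4 : ℝ) →
      volume (Set.Icc 0 T \ regular4 U (Real.log T ^ B₀)) ≤ ENNReal.ofReal (T / Real.log T ^ B) ∧
      volume {c : Fin n → ℝ | (∀ j, 0 ≤ c j ∧ c j ≤ U) ∧
        ¬ |moment T U (Real.log T ^ B₀) c / (Z c * A c * (T * Real.log T ^ (n + 1))) - 1| ≤ ε} ≤
          ENNReal.ofReal (ε * U ^ n)) ∧
    (∀ k : ℕ, ∃ δ C₀ T₀ : ℝ, 0 < δ ∧ ∀ T H U : ℝ, T₀ ≤ T → 0 < H → H ≤ T → U ≤ T →
      T * Real.log T ^ C₀ ≤ H * U →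
      volume (Set.Icc T (T + H) \ regular2 U ((H * U / T) ^ (3 * δ))) ≤ ENNReal.ofReal (H * (H * U / T) ^ (-δ)) ∧
      (T ^ (1 / 2 : ℝ) ≤ U → Set.Icc T (T + H) ⊆ regular2 U ((H * U / T) ^ (3 * δ))) ∧
      volume {γ : Fin k ⊕ Fin k → ℝ | (∀ i, 0 ≤ γ i ∧ γ i ≤ U) ∧ H * (H * U / T) ^ (-δ) <
        ‖(∫ t in regular2 U ((H * U / T) ^ (3 * δ)) ∩ Set.Icc T (T + H),
            ∏ j, riemannZeta (1 / 2 + I * (t + γ (Sum.inl j))) * riemannZeta (1 / 2 - I * (t + γ (Sum.inr j)))) -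
          H * diagonal (fun j => I * γ (Sum.inl j)) (fun j => -(I * γ (Sum.inr j)))‖} ≤
        ENNReal.ofReal (U ^ (2 * k) * (H * U / T) ^ (-δ))) := by
  constructor
  · intro n B
    obtain ⟨C₀, B₀, h⟩ := Pool.Agent.Helper83x.ZM.pz_main n B
    refine ⟨C₀, B₀, fun ε hε => ?_⟩
    obtain ⟨T₀, hT₀⟩ := eventually_atTop.1 (h ε hε)
    refine ⟨T₀, fun T U hT hU hU2 => ?_⟩
    have e1 : ∀ u : ℝ, ‖riemannZeta (1 / 2 + I * u)‖ ^ 4 = Pool.Agent.Y969.GP.ff u ^ 2 := fun u => by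
      unfold Pool.Agent.Y969.GP.ff
      ring
    have e2 : regular4 U (Real.log T ^ B₀) = Pool.Agent.N879.PZ.Gs U (Real.log T ^ B₀) := by
      unfold regular4 Pool.Agent.N879.PZ.Gs
      simp only [e1]
    have e3 : ∀ c : Fin n → ℝ, moment T U (Real.log T ^ B₀) c =
        Pool.Agent.N879.PZ.MG T U (Real.log T ^ B₀) c := fun c => by
      unfold moment Pool.Agent.N879.PZ.MG
      rw [e2]
      refine integral_congr_ae (Eventually.of_forall fun t => ?_)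
      unfold Pool.Agent.Y969.GP.ff
      simp only [ofReal_add]
    have h1 := hT₀ T hT U hU hU2
    simp only [e3]
    rw [e2]
    exact h1
  · intro k
    obtain ⟨δ, C₀, T₀, hδ, h⟩ := Pool.Agent.Helper83x.ZM.pu_main k
    refine ⟨δ, C₀, T₀, hδ, fun T H U hT hH hHT hUT hHU => ?_⟩
    obtain ⟨h1, h2, h3⟩ := h T H U hT hH hHT hUT hHU
    refine ⟨h1, h2, ?_⟩
    rw [← vol_box] at h3
    have e1 : ∀ γ : Fin k ⊕ Fin k → ℝ, diagonal (fun j => I * γ (Sum.inl j)) (fun j => -(I * γ (Sum.inr j))) =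
        Pool.Agent.TH612.GS.zr γ := fun γ => diagonal_eq (fun j => (γ (Sum.inl j) : ℂ)) (fun j => (γ (Sum.inr j) : ℂ))
    simp only [F_eq, e1]
    exact h3

end

end Pool.Agent.Results.MP_973905_nt.ShortIntervalsSmallShifts
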